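import Pool.Agent.MP_5c28a4_al.H62S.Base

/-!
Part QUO: a representation of degree below `d + 1` is finite if its top parts and the largest
invariant subgroup of degree below `d` are finite.
-/

set_option autoImplicit false

namespace Pool.Agent.MP_5c28a4_al.H89S.HausA

namespace RQuoA

open Finset

/-- translations of functions -/
def trl (U X : Type) [AddCommGroup U] [AddCommGroup X] :
    Multiplicative U →* Module.End ℤ (U → X) where
  toFun u := LinearMap.funLeft ℤ X fun a => a + u.toAdd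
  map_one' := LinearMap.ext fun g => funext fun a => by simp
  map_mul' u u' := LinearMap.ext fun g => funext fun a => by simp [add_assoc]

/-- iterated differences vanish if they vanish in the elementary directions -/
theorem diff {J W X : Type} [Fintype J] [DecidableEq J] [AddCommGroup W] [AddCommGroup X]
    (f : (J → W) → X) {E F : Finset J} (hc : F.card = E.card)
    (h : ∀ (b : J → J) (v : J → W), (∃ i ∈ E, ∀ a, f (a + Pi.single (b i) (v i)) = f a) ∨
      ∀ a : J → W,
        ∑ S ∈ E.powerset, (-1 : ℤ) ^ S.card • f (a + ∑ i ∈ S, Pi.single (b i) (v i)) = 0)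
    (w : J → J → W) (a : J → W) :
    ∑ S ∈ F.powerset, (-1 : ℤ) ^ S.card • f (a + ∑ i ∈ S, w i) = 0 := by
  let π := AddMonoidAlgebra.lift ℤ _ _ (trl (J → W) X)
  have e1 : ∀ u a, π (.single u 1) f a = f (a + u) := fun u a => by simp [π, trl]
  have e2 : ∀ (F : Finset J) (w : J → J → W) a, π (∏ i ∈ F, (1 - .single (w i) 1)) f a =
      ∑ S ∈ F.powerset, (-1 : ℤ) ^ S.card • f (a + ∑ i ∈ S, w i) := by
    intro F w a
    rw [prod_sub, map_sum, LinearMap.sum_apply, Finset.sum_apply]
    refine sum_congr rfl fun S _ => ?_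
    rw [prod_const_one, mul_one, AddMonoidAlgebra.prod_single, prod_const_one, ← e1,
      ← Pi.smul_apply, ← LinearMap.smul_apply, ← map_zsmul π, zsmul_eq_mul]
    push_cast
    rfl
  let A : Ideal (AddMonoidAlgebra ℤ (J → W)) :=
    { carrier := {r | π r f = 0}
      add_mem' := fun {r r'} hr hr' => by
        show π (r + r') f = 0
        rw [map_add, LinearMap.add_apply, hr, hr', add_zero]
      zero_mem' := by simp
      smul_mem' := fun c r hr => by
        show π (c * r) f = 0
        rw [map_mul, Module.End.mul_apply, hr, map_zero] }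
  let B : Set (AddMonoidAlgebra ℤ (J → W)) := {r | ∃ c v, r = 1 - .single (Pi.single c v) 1}
  have h1 : ∀ u : J → W, 1 - .single u 1 ∈ Ideal.span B := by
    intro u
    refine univ_sum_single u ▸ sum_induction (s := univ) (fun c => (Pi.single c (u c) : J → W))
      (fun u => 1 - .single u 1 ∈ Ideal.span B) (fun u u' hu hu' => ?_)
      (by simp [← AddMonoidAlgebra.one_def]) fun c _ => Ideal.subset_span ⟨c, _, rfl⟩
    have : (1 - .single (u + u') 1 : AddMonoidAlgebra ℤ (J → W)) =
        (1 - .single u 1) + .single u 1 * (1 - .single u' 1) := by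
      rw [mul_sub, AddMonoidAlgebra.single_mul_single, mul_one, mul_one, sub_add_sub_cancel]
    rw [this]
    exact add_mem hu (Ideal.mul_mem_left _ _ hu')
  have h2 : ∏ _i ∈ E, Ideal.span B ≤ A := by
    rw [Ideal.prod_span, Ideal.span_le]
    intro r hr
    obtain ⟨g, hg, rfl⟩ := (Set.mem_finsetProd _ _ _).1 hr
    have : ∀ i, ∃ c v, i ∈ E → g i = 1 - .single (Pi.single c v) 1 := fun i => by
      by_cases hi : i ∈ E
      · obtain ⟨c, v, e⟩ := hg hi
        exact ⟨c, v, fun _ => e⟩
      · exact ⟨i, 0, fun h' => absurd h' hi⟩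
    choose b v hb using this
    rw [prod_congr rfl hb]
    rcases h b v with ⟨i, hi, h3⟩ | h3
    · refine A.mem_of_dvd (dvd_prod_of_mem _ hi) (funext fun a => ?_)
      rw [map_sub, map_one, LinearMap.sub_apply, Pi.sub_apply, e1, h3]
      exact sub_self _
    · exact funext fun a => (e2 _ _ a).trans (h3 a)
  have h3 := Ideal.prod_mem_prod (s := F) (I := fun _ => Ideal.span B) fun i _ => h1 (w i)
  rw [prod_const, hc, ← prod_const] at h3
  exact (e2 F w a).symm.trans (congrFun (h2 h3) a)

variable {Γ I : Type} [Group Γ] [Fintype I] [DecidableEq I] {γ : I → Γ} {X : Type}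
  [AddCommGroup X] {ρ : Representation ℤ (Th γ) X}

/-- the element of `Th γ` that moves the basis by `u` -/
noncomputable def th (u : I → VV γ) : Th γ :=
  mkTh γ (fun c => bas Γ c + u c) fun c => by rw [map_add, (u c).2, add_zero]

theorem th_bas (u : I → VV γ) (c : I) : (th u).1 (bas Γ c) = bas Γ c + u c := mkTh_bas _ _ _ _

/-- the test elements -/
noncomputable def kap {E : Finset I} (hE : E ⊆ nw γ) (b : I → I) : Th γ :=
  mkTh γ (fun c => bas Γ c + ∑ i ∈ E with b i = c, bas Γ i) fun c => by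
    rw [map_add, map_sum, sum_eq_zero fun i hi => del_bas_nw (hE (mem_filter.1 hi).1), add_zero]

theorem agree {E : Finset I} (hE : E ⊆ nw γ) {y : X} (hy : ρ (kil γ E) y = y) {θ θ' : Th γ}
    (h : ∀ c ∉ E, θ.1 (bas Γ c) = θ'.1 (bas Γ c)) : ρ θ y = ρ θ' y := by
  have : θ * kil γ E = θ' * kil γ E := th_ext fun c => by
    rw [th_mul, th_mul]
    by_cases hc : c ∈ E
    · rw [kil_bas_mem hc (hE hc), map_zero, map_zero]
    · rw [kil_bas_not hc, h c hc]
  rw [← hy, ← Module.End.mul_apply, ← map_mul, this, map_mul, Module.End.mul_apply]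

theorem pj_apply (E : Finset I) (θ : Th γ) (y : X) :
    pj ρ E (ρ θ y) = ∑ S ∈ E.powerset, (-1 : ℤ) ^ S.card • ρ (kil γ S * θ) y := by
  rw [pj, LinearMap.sum_apply]
  exact sum_congr rfl fun S _ => by rw [map_mul]; rfl

theorem claim {E : Finset I} (hE : E ⊆ nw γ) {d : ℕ} (hd : E.card = d) {y : X}
    (hy : ρ (kil γ E) y = y) (h : ∀ b, pj ρ E (ρ (kap hE b) y) = 0) : y ∈ SS ρ d := by
  subst hd
  intro F hF hc θ
  have : ∀ i, ∃ e : VV γ, i ∈ nw γ → e.1 = bas Γ i := fun i => by
    by_cases hi : i ∈ nw γ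
    · exact ⟨⟨_, del_bas_nw hi⟩, fun _ => rfl⟩
    · exact ⟨0, fun h' => absurd h' hi⟩
  choose e he using this
  have key := diff (fun u => ρ (th u) y) hc (fun b v => ?_)
    (fun i c => -(θ.1 (bas Γ c) i • e i)) fun c => ⟨θ.1 (bas Γ c) - bas Γ c, by
      rw [VV, LinearMap.mem_ker, map_sub, th_del, sub_self]⟩
  · rw [pj_apply, ← key]
    refine sum_congr rfl fun S hS => ?_
    have hS' := (mem_powerset.1 hS).trans hF
    congr 3
    refine th_ext fun c => ?_
    rw [th_mul, kil_apply hS', th_bas, sum_congr rfl fun i hi => by rw [← he i (hS' hi)]]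
    simp [Finset.sum_apply, sub_eq_add_neg, ← add_assoc]
  by_cases hb : ∃ i ∈ E, b i ∈ E
  · obtain ⟨i, hi, hb⟩ := hb
    refine Or.inl ⟨i, hi, fun a => agree hE hy fun c hc => ?_⟩
    rw [th_bas, th_bas, Pi.add_apply, Pi.single_eq_of_ne (ne_of_mem_of_not_mem hb hc).symm, add_zero]
  refine Or.inr fun a => ?_
  let θ₁ : Th γ := mkTh γ (fun c => if c ∈ E then -(v c).1 else
      bas Γ c + (a c).1 + ∑ i ∈ E with b i = c, (v i).1) fun c => by
    split_ifs with hc
    · rw [map_neg, (v c).2, neg_zero, del_bas_nw (hE hc)]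
    · rw [map_add, map_add, (a c).2, map_sum, sum_eq_zero fun i _ => (v i).2, add_zero, add_zero]
  have h1 := congrArg (ρ θ₁) (h b)
  rw [pj_apply, map_sum, map_zero] at h1
  rw [← h1]
  refine sum_congr rfl fun S hS => ?_
  have hS' := mem_powerset.1 hS
  rw [map_zsmul, ← Module.End.mul_apply, ← map_mul]
  congr 1
  refine agree hE hy fun c hc => ?_
  have h2 : ∀ i ∈ E.filter fun i => b i = c,
      θ₁.1 ((kil γ S).1 (bas Γ i)) = (if i ∈ S then (v i).1 else 0) - (v i).1 := by
    intro i hi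
    have hi' := (mem_filter.1 hi).1
    split_ifs with h3
    · rw [kil_bas_mem h3 (hE hi'), map_zero, sub_self]
    · rw [kil_bas_not h3, mkTh_bas, if_pos hi', zero_sub]
  rw [th_bas, th_mul, th_mul, kap, mkTh_bas, map_add, map_add, map_sum, map_sum,
    kil_bas_not fun h' => hc (hS' h'), mkTh_bas, if_neg hc, sum_congr rfl h2, sum_sub_distrib,
    add_add_sub_cancel, ← sum_filter, filter_comm, filter_mem_eq_inter, inter_eq_right.2 hS',
    sum_filter]
  simp [Finset.sum_apply, Pi.single_apply, add_assoc, eq_comm, apply_ite]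

theorem decomp (N : Finset I) : ∑ A ∈ N.powerset, pj ρ A * ρ (kil γ (N \ A)) = 1 := by
  induction N using Finset.induction_on with
  | empty => simp [pj_empty, kil_empty]
  | insert i N hi ih =>
    rw [sum_powerset_insert hi, ← sum_add_distrib, ← ih]
    refine sum_congr rfl fun A hA => ?_
    have h1 : i ∉ A := fun h => hi (mem_powerset.1 hA h)
    rw [pj_insert' ρ h1, insert_sdiff_of_notMem _ h1, insert_sdiff_insert,
      sdiff_insert_of_notMem hi, insert_eq, ← kil_mul, map_mul, mul_assoc, ← mul_add, ← add_mul,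
      add_sub_cancel, one_mul]

end RQuoA

open RQuoA Finset in
theorem rQuo : RQuo := by
  intro Γ I _ _ _ γ X _ ρ d hd hD hS hF
  have : ∀ A : {A : Finset I // A ⊆ nw γ ∧ A.card ≤ d}, ∃ E ⊆ nw γ \ A.1, E.card = d :=
    fun A => exists_subset_card_eq (by rw [card_sdiff_of_subset A.2.1]; have := A.2.2; omega)
  choose E hE hc using this
  have hE' : ∀ A, E A ⊆ nw γ := fun A => (hE A).trans sdiff_subset
  have hfin : ∀ A, Finite (LinearMap.range (pj ρ (E A))) := fun A => hF _ (hE' A) (hc A)
  let Ψ : X →ₗ[ℤ] ∀ A, (I → I) → LinearMap.range (pj ρ (E A)) :=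
    LinearMap.pi fun A => LinearMap.pi fun b => (pj ρ (E A)).rangeRestrict ∘ₗ
      (ρ (kap (hE' A) b) * (pj ρ A.1 * ρ (kil γ (nw γ \ A.1))))
  refine Ψ.toAddMonoidHom.finite_iff_finite_ker_range.2 ⟨?_, inferInstance⟩
  refine Finite.of_injective (β := SS ρ d) (fun x => ⟨x.1, ?_⟩) fun x y h =>
    Subtype.ext (Subtype.mk.inj h)
  have h1 := LinearMap.congr_fun (decomp (ρ := ρ) (nw γ)) x.1
  rw [Module.End.one_apply, LinearMap.sum_apply] at h1
  rw [← h1]
  refine sum_mem fun A hA => ?_
  have hA' := mem_powerset.1 hA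
  rcases le_or_gt A.card d with h | h
  · refine claim (hE' _) (hc ⟨A, hA', h⟩) ?_ fun b =>
      congrArg Subtype.val (congrFun (congrFun x.2 ⟨A, hA', h⟩) b)
    rw [← Module.End.mul_apply, ← mul_assoc, kil_pj, mul_assoc, ← map_mul, kil_mul,
      union_eq_right.2 (hE ⟨A, hA', h⟩)]
  · obtain ⟨B, hB, hB'⟩ := exists_subset_card_eq (s := A) (n := d + 1) h
    have h2 : pj ρ A = 0 := by
      rw [← union_sdiff_of_subset hB, pj_union ρ disjoint_sdiff, hD B (hB.trans hA') hB', zero_mul]
    rw [h2, zero_mul]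
    exact zero_mem _

end Pool.Agent.MP_5c28a4_al.H89S.HausA
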