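import Pool.Agent.MP_5c28a4_al.H68S.Spec

/-!
Section S2, part PU: tame commutators in class two.
-/

set_option autoImplicit false

namespace Pool.Agent.MP_5c28a4_al.H89S.StrA

open scoped commutatorElement
open StA Ut3A

namespace StrPu

variable {N : Type} [Group N] {P : Subgroup N}

theorem mem_cl [P.Normal] (hB : Cm ⁅P, P⁆ P) {q : N} (hq : q ∈ P) (n : ℕ) {x : N}
    (hx : x ∈ Subgroup.closure {x | ∃ c ∈ P, x = ⁅c, q⁆ ^ n}) : ∃ c ∈ P, x = ⁅c, q⁆ ^ n := by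
  induction hx using Subgroup.closure_induction with
  | mem _ h => exact h
  | one => exact ⟨1, P.one_mem, by simp⟩
  | mul _ _ _ _ ha hb =>
    obtain ⟨a, ha, rfl⟩ := ha
    obtain ⟨b, hb, rfl⟩ := hb
    refine ⟨a * b, P.mul_mem ha hb, ?_⟩
    rw [comm_mul_left hB le_rfl ha hb hq]
    exact (Commute.mul_pow (hB _ (comm_mem le_rfl ha hq) _ (comm_mem_left hb q)) n).symm
  | inv _ _ ha =>
    obtain ⟨a, ha, rfl⟩ := ha
    exact ⟨a⁻¹, P.inv_mem ha, by rw [comm_inv_left hB le_rfl ha hq, inv_pow]⟩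

theorem pairs {α : Type} (F : α → Subgroup N) (g : α × N → N)
    (h : ∀ w, ∀ x ∈ F w, ∃ c ∈ P, x = g (w, c)) : ∀ (ws : List α) (xs : List N),
    List.Forall₂ (fun x W => x ∈ W) xs (ws.map F) →
      ∃ l' : List (α × N), l'.map Prod.fst = ws ∧ (∀ t ∈ l', t.2 ∈ P) ∧ xs = l'.map g := by
  intro ws
  induction ws with
  | nil =>
    intro xs hx
    exact ⟨[], rfl, by simp, by simpa using hx⟩
  | cons w ws ih =>
    intro xs hx
    rw [List.map_cons] at hx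
    rcases hx with _ | ⟨h1, h2⟩
    obtain ⟨c, hc, rfl⟩ := h _ _ h1
    obtain ⟨l', rfl, k1, rfl⟩ := ih _ h2
    exact ⟨(w, c) :: l', rfl, List.forall_mem_cons.2 ⟨hc, k1⟩, rfl⟩

theorem swap [hP : P.Normal] {D : Subgroup N} [D.Normal] (hB : Cm ⁅P, P⁆ P) {c y z : N}
    (hc : c ∈ P) (hy : y ∈ P) (hz : z ∈ D) (w : FreeGroup ℤ) (n : ℕ) :
    (⁅c, evz y z⁻¹ w⁆ ^ n)⁻¹ * ⁅evz c z w, y⁆ ^ n ∈ ⁅⁅P, P⁆, D⁆ := by
  let π := QuotientGroup.mk' ⁅⁅P, P⁆, D⁆
  have h1 := hP.map π (QuotientGroup.mk'_surjective _)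
  have h2 := comm_evz (P := P.map π) (B := ⁅P, P⁆.map π) (z := (π z)⁻¹)
    (by
      rintro _ ⟨a, ha, rfl⟩ _ ⟨b, hb, rfl⟩
      rw [← map_mul, hB a ha b hb, map_mul])
    (Subgroup.map_commutator P P π).ge (nz_of_normal _ _)
    (by
      rintro _ ⟨a, ha, rfl⟩
      refine (Commute.inv_right (commutatorElement_eq_one_iff_commute.1 ?_)).symm
      rw [← map_commutatorElement]
      exact (QuotientGroup.eq_one_iff _).2 (Subgroup.commutator_mem_commutator ha hz))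
    (Subgroup.mem_map_of_mem π hc) (Subgroup.mem_map_of_mem π hy) w
  rw [inv_inv, ← map_inv, ← evz_map, ← evz_map, ← map_commutatorElement,
    ← map_commutatorElement] at h2
  refine QuotientGroup.eq.1 ?_
  change π _ = π _
  rw [map_pow, map_pow, h2]

end StrPu

open StrPu in
theorem pu (h1 : SCm) (h2 : SPc) (h3 : SUni) : SPu := by
  intro u l hl hu
  obtain ⟨ws, m, n, k1, k2, k3, k4⟩ := h2 (u l) l hl hu
  obtain ⟨W, k5, k6⟩ := h1 ws k1
  refine ⟨W, k5, fun N A _ _ ρ hρ P D v hP hD hc hv z hz y hy ds hl' hds => ?_⟩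
  have hB := cm_of_lcs_two hc
  have hq : ∀ c ∈ P, ∀ z w, evz c z w ∈ P := fun c hc z w => evz_mem hc (nz_of_normal P z) w
  obtain ⟨M, t, hM, h⟩ := h3 N A ρ m D hD v ⁅P, P⁆ inferInstance
    (cm_mono hB le_rfl (Subgroup.commutator_le_left P P)) hv
    (ws.map fun w => Subgroup.closure {x | ∃ c ∈ P, x = ⁅c, evz y z⁻¹ w⁆ ^ n})
    {x | ∃ c ∈ P, x = ⁅evz c z W, y⁆ ^ n}
    (by
      rintro _ ⟨c, hc, rfl⟩
      exact pow_mem (comm_mem le_rfl (hq c hc z W) hy) n)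
    (by
      intro X hX
      obtain ⟨w, hw, rfl⟩ := List.mem_map.1 hX
      constructor
      · rw [Subgroup.closure_le]
        rintro _ ⟨c, hc, rfl⟩
        exact pow_mem (comm_mem le_rfl hc (hq y hy _ w)) n
      · rintro _ ⟨c, hc, rfl⟩
        obtain ⟨W', hW⟩ := k6 w hw
        have h4 := hW N P c z hc (nz_of_normal P z)
        have h5 := hq c hc z W'
        have h6 := comm_mul_left hB le_rfl (Subgroup.commutator_le_left P P h4) (hq _ h5 z w) hy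
        rw [inv_mul_cancel_right, commutatorElement_eq_one_iff_mul_comm.2 (hB _ h4 y hy),
          one_mul] at h6
        rw [h6, ← mul_inv_cancel_left (⁅evz c z W', evz y z⁻¹ w⁆ ^ n) (_ ^ n)]
        exact Subgroup.mul_mem_sup (Subgroup.subset_closure ⟨_, h5, rfl⟩) (swap hB h5 hy hz w n))
    (by
      intro xs hx
      obtain ⟨l', e1, e2, rfl⟩ := pairs _ (fun t => ⁅t.2, evz y z⁻¹ t.1⁆ ^ n)
        (fun w x hx => mem_cl hB (hq y hy _ w) n hx) ws xs hx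
      rw [List.map_map]
      exact k4 N A ρ (hρ l hl) P y z⁻¹ hc hy (nz_of_normal P _) l' e1 e2) ds hl' hds
  refine ⟨n * M, Nat.mul_pos k3 hM, m, k2, t, fun a => up_anti ?_ t (h a)⟩
  rintro _ ⟨c, hc, rfl⟩
  refine ⟨_, ⟨c, hc, rfl⟩, ?_⟩
  rw [icm_pow (cm_mono hB le_rfl (Subgroup.commutator_le_left P P))
    (comm_mem le_rfl (hq c hc z W) hy), pow_mul]

end Pool.Agent.MP_5c28a4_al.H89S.StrA
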